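import Pool.Agent.NH4.XF.Cnt

/-!
# Inclusion and exclusion for natural proportions
-/

set_option autoImplicit false
set_option linter.style.haveILetI false

open scoped Classical

namespace Pool.Agent.NH4.XF

open Finset Filter Topology

/-- a property holds or does not hold -/
theorem cz_add (P Q : ℤ → Prop) (X : ℕ) :
    cz P X = cz (fun M => P M ∧ Q M) X + cz (fun M => P M ∧ ¬ Q M) X := by
  unfold cz
  rw [← Nat.cast_add]
  congr 1
  rw [← Finset.card_filter_add_card_filter_not (s := (Icc (-(X : ℤ)) X).filter fun M : ℤ =>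
    Squarefree M ∧ P M) (p := Q)]
  congr 2
  · ext M
    simp only [Finset.mem_filter]
    tauto
  · ext M
    simp only [Finset.mem_filter]
    tauto

theorem cz_congr' {P Q : ℤ → Prop} (h : ∀ M, Squarefree M → (P M ↔ Q M)) (X : ℕ) :
    cz P X = cz Q X := by
  unfold cz
  congr 2
  ext M
  simp only [Finset.mem_filter]
  exact and_congr_right fun _ => and_congr_right fun h1 => h M h1

/-- **all the patterns** from the common occurrences -/
theorem patterns {ι : Type} [Nonempty ι] {P : ι → ℤ → Prop} {Cl : ℤ → Prop} {κ x : ℝ} (hx : x ≠ 0)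
    (h : ∀ T : Finset ι, T.Nonempty →
      Tendsto (fun X : ℕ => cz (fun M => Cl M ∧ ∀ t ∈ T, P t M) X / cz Cl X) atTop
        (𝓝 (x ^ T.card)) ∧
      Tendsto (fun X : ℕ => cz (fun M => Cl M ∧ ∀ t ∈ T, P t M) X / cz (fun _ => True) X) atTop
        (𝓝 (κ * x ^ T.card))) (T U : Finset ι) (hTU : Disjoint T U) :
    Tendsto (fun X : ℕ => cz (fun M => Cl M ∧ (∀ t ∈ T, P t M) ∧ ∀ v ∈ U, ¬ P v M) X / cz Cl X) atTop
        (𝓝 (x ^ T.card * (1 - x) ^ U.card)) ∧
      Tendsto (fun X : ℕ => cz (fun M => Cl M ∧ (∀ t ∈ T, P t M) ∧ ∀ v ∈ U, ¬ P v M) X /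
        cz (fun _ => True) X) atTop (𝓝 (κ * (x ^ T.card * (1 - x) ^ U.card))) := by
  obtain ⟨t₀⟩ := ‹Nonempty ι›
  obtain ⟨g1, g2⟩ := h {t₀} (Finset.singleton_nonempty _)
  rw [Finset.card_singleton, pow_one] at g1 g2
  have hne : ∀ᶠ X : ℕ in atTop, cz Cl X ≠ 0 := by
    filter_upwards [g1.eventually_ne hx] with X hX h0
    apply hX
    rw [h0, div_zero]
  have hk : Tendsto (fun X : ℕ => cz Cl X / cz (fun _ => True) X) atTop (𝓝 κ) := by
    have g3 := g2.div g1 hx
    rw [mul_div_assoc, div_self hx, mul_one] at g3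
    refine g3.congr' ?_
    filter_upwards [hne, g1.eventually_ne hx] with X hX hX2
    have h4 : cz (fun M => Cl M ∧ ∀ t ∈ ({t₀} : Finset ι), P t M) X ≠ 0 := by
      intro h0
      apply hX2
      rw [h0, zero_div]
    simp only [Pi.div_apply]
    field_simp
  have key : ∀ (U T : Finset ι), Disjoint T U →
      Tendsto (fun X : ℕ => cz (fun M => Cl M ∧ (∀ t ∈ T, P t M) ∧ ∀ v ∈ U, ¬ P v M) X / cz Cl X)
        atTop (𝓝 (x ^ T.card * (1 - x) ^ U.card)) := by
    intro U
    induction U using Finset.induction_on with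
    | empty =>
      intro T _
      have e : ∀ X : ℕ, cz (fun M => Cl M ∧ (∀ t ∈ T, P t M) ∧ ∀ v ∈ (∅ : Finset ι), ¬ P v M) X =
          cz (fun M => Cl M ∧ ∀ t ∈ T, P t M) X := fun X =>
        cz_congr' (fun M _ => by simp) X
      simp only [e, Finset.card_empty, pow_zero, mul_one]
      rcases T.eq_empty_or_nonempty with rfl | hT
      · have e2 : ∀ X : ℕ, cz (fun M => Cl M ∧ ∀ t ∈ (∅ : Finset ι), P t M) X = cz Cl X := fun X =>
          cz_congr' (fun M _ => by simp) X
        simp only [e2, Finset.card_empty, pow_zero]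
        refine tendsto_const_nhds.congr' ?_
        filter_upwards [hne] with X hX
        rw [div_self hX]
      · exact (h T hT).1
    | insert u U hu ih =>
      intro T hd
      rw [Finset.disjoint_insert_right] at hd
      have h1 := ih T hd.2
      have h2 := ih (insert u T) (by rw [Finset.disjoint_insert_left]; exact ⟨hu, hd.2⟩)
      rw [Finset.card_insert_of_notMem hd.1] at h2
      rw [Finset.card_insert_of_notMem hu]
      have h3 := h1.sub h2
      rw [show x ^ T.card * (1 - x) ^ U.card - x ^ (T.card + 1) * (1 - x) ^ U.card =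
        x ^ T.card * (1 - x) ^ (U.card + 1) by ring] at h3
      refine h3.congr fun X => ?_
      have h4 := cz_add (fun M => Cl M ∧ (∀ t ∈ T, P t M) ∧ ∀ v ∈ U, ¬ P v M) (P u) X
      have e1 : cz (fun M => (Cl M ∧ (∀ t ∈ T, P t M) ∧ ∀ v ∈ U, ¬ P v M) ∧ P u M) X =
          cz (fun M => Cl M ∧ (∀ t ∈ insert u T, P t M) ∧ ∀ v ∈ U, ¬ P v M) X := by
        refine cz_congr' (fun M _ => ?_) X
        simp only [Finset.mem_insert, forall_eq_or_imp]
        tauto
      have e2 : cz (fun M => (Cl M ∧ (∀ t ∈ T, P t M) ∧ ∀ v ∈ U, ¬ P v M) ∧ ¬ P u M) X =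
          cz (fun M => Cl M ∧ (∀ t ∈ T, P t M) ∧ ∀ v ∈ insert u U, ¬ P v M) X := by
        refine cz_congr' (fun M _ => ?_) X
        simp only [Finset.mem_insert, forall_eq_or_imp]
        tauto
      rw [e1, e2] at h4
      rw [← sub_div, h4, add_sub_cancel_left]
  refine ⟨key U T hTU, ?_⟩
  have h1 := (key U T hTU).mul hk
  rw [mul_comm _ κ] at h1
  refine h1.congr' ?_
  filter_upwards [hne] with X hX
  field_simp

end Pool.Agent.NH4.XF
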