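import Pool.Agent.NH4.XF.Main2

/-!
# Multiquadratic fields and the twists of `X_0(15)`: integers of both signs
-/

set_option autoImplicit false
set_option linter.style.haveILetI false

open scoped Classical

namespace Pool.Agent.NH4.XF

open Finset Filter Topology
open Pool.Agent.NH4.PF (Ind pf sqf_unique)
open Pool.Agent.NH3.XD (DB KrD)
open Pool.Agent.NH5.PR (eta)

/-- the number of the squarefree integers `M`, `|M| ≤ X`, with a property -/
noncomputable def cz (P : ℤ → Prop) (X : ℕ) : ℝ :=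
  (((Icc (-(X : ℤ)) X).filter fun M : ℤ => Squarefree M ∧ P M).card : ℝ)

theorem sqf_neg' (N : ℕ) : Squarefree (-(N : ℤ)) ↔ Squarefree N := by
  rw [← Int.squarefree_natAbs, Int.natAbs_neg, Int.natAbs_natCast]

theorem cz_split (P : ℤ → Prop) (X : ℕ) : cz P X =
    cn (fun D => P (-(D : ℤ))) X + cn (fun D => P (D : ℤ)) X := by
  unfold cz cn
  rw [← Nat.cast_add]
  congr 1
  have h1 : ((Icc 1 X).filter fun D : ℕ => Squarefree D ∧ P (-(D : ℤ))).card =
      ((Icc (-(X : ℤ)) X).filter fun M : ℤ => (Squarefree M ∧ P M) ∧ M < 0).card := by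
    refine Finset.card_bij' (fun D _ => -(D : ℤ)) (fun M _ => M.natAbs) ?_ ?_ ?_ ?_
    · intro D hD
      obtain ⟨g1, g2, g3⟩ := Finset.mem_filter.1 hD
      rw [Finset.mem_Icc] at g1
      exact Finset.mem_filter.2 ⟨Finset.mem_Icc.2 ⟨by omega, by omega⟩,
        ⟨(sqf_neg' D).2 g2, g3⟩, by omega⟩
    · intro M hM
      obtain ⟨g1, ⟨g2, g3⟩, g4⟩ := Finset.mem_filter.1 hM
      rw [Finset.mem_Icc] at g1
      refine Finset.mem_filter.2 ⟨Finset.mem_Icc.2 ⟨by omega, by omega⟩,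
        Int.squarefree_natAbs.2 g2, ?_⟩
      rw [show -((M.natAbs : ℕ) : ℤ) = M by omega]
      exact g3
    · intro D _
      show (-(D : ℤ)).natAbs = D
      omega
    · intro M hM
      have g4 := (Finset.mem_filter.1 hM).2.2
      show -((M.natAbs : ℕ) : ℤ) = M
      omega
  have h2 : ((Icc 1 X).filter fun D : ℕ => Squarefree D ∧ P (D : ℤ)).card =
      ((Icc (-(X : ℤ)) X).filter fun M : ℤ => (Squarefree M ∧ P M) ∧ ¬ M < 0).card := by
    refine Finset.card_bij' (fun D _ => (D : ℤ)) (fun M _ => M.natAbs) ?_ ?_ ?_ ?_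
    · intro D hD
      obtain ⟨g1, g2, g3⟩ := Finset.mem_filter.1 hD
      rw [Finset.mem_Icc] at g1
      exact Finset.mem_filter.2 ⟨Finset.mem_Icc.2 ⟨by omega, by omega⟩,
        ⟨Int.squarefree_natCast.2 g2, g3⟩, by omega⟩
    · intro M hM
      obtain ⟨g1, ⟨g2, g3⟩, g4⟩ := Finset.mem_filter.1 hM
      rw [Finset.mem_Icc] at g1
      have g5 : M ≠ 0 := g2.ne_zero
      refine Finset.mem_filter.2 ⟨Finset.mem_Icc.2 ⟨by omega, by omega⟩,
        Int.squarefree_natAbs.2 g2, ?_⟩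
      rw [show ((M.natAbs : ℕ) : ℤ) = M by omega]
      exact g3
    · intro D _
      show ((D : ℤ)).natAbs = D
      omega
    · intro M hM
      have g4 := (Finset.mem_filter.1 hM).2.2
      show ((M.natAbs : ℕ) : ℤ) = M
      omega
  rw [h1, h2]
  rw [← Finset.filter_filter _ (fun M : ℤ => M < 0), ← Finset.filter_filter _ (fun M : ℤ => ¬ M < 0)]
  exact (Finset.card_filter_add_card_filter_not _).symm

theorem cn_zero {P : ℕ → Prop} (h : ∀ D, 1 ≤ D → Squarefree D → ¬ P D) (X : ℕ) : cn P X = 0 := by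
  unfold cn
  rw [Finset.filter_false_of_mem fun D hD hP => h D (Finset.mem_Icc.1 hD).1 hP.1 hP.2,
    Finset.card_empty, Nat.cast_zero]

theorem cz_all (X : ℕ) : cz (fun _ => True) X = 2 * cn (fun _ => True) X := by
  rw [cz_split, two_mul]

/-- the class `b` -/
theorem cz_B (X : ℕ) : cz (fun M => M < 0 ∧ (M % 60 = 13 ∨ M % 60 = 37)) X =
    cn (fun D => D % 60 ∈ cB) X := by
  rw [cz_split, cn_zero (P := fun D : ℕ => ((D : ℤ) < 0 ∧ ((D : ℤ) % 60 = 13 ∨ (D : ℤ) % 60 = 37)))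
    (fun D _ _ h => by omega), add_zero]
  refine cn_congr (fun D hD => ?_) X
  have h0 : D ≠ 0 := hD.ne_zero
  rw [mem_cB]
  omega

/-- the class `a` -/
theorem cz_A (X : ℕ) : cz (fun M => 0 < M ∧ (M % 60 = 1 ∨ M % 60 = 49)) X =
    cn (fun D => D % 60 ∈ cA) X := by
  rw [cz_split, cn_zero (P := fun D : ℕ => (0 < -(D : ℤ) ∧ (-(D : ℤ) % 60 = 1 ∨ -(D : ℤ) % 60 = 49)))
    (fun D _ _ h => by omega), zero_add]
  refine cn_congr (fun D hD => ?_) X
  have h0 : D ≠ 0 := hD.ne_zero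
  rw [mem_cA]
  omega

/-- a property which holds only for the class `b` -/
theorem cz_neg {P : ℤ → Prop} (h : ∀ M, 0 < M → Squarefree M → ¬ P M) (X : ℕ) :
    cz P X = cn (fun D => P (-(D : ℤ))) X := by
  rw [cz_split, cn_zero (P := fun D : ℕ => P (D : ℤ)) (fun D h1 h2 =>
    h D (by exact_mod_cast h1) (Int.squarefree_natCast.2 h2)), add_zero]

theorem cz_pos {P : ℤ → Prop} (h : ∀ M, M < 0 → Squarefree M → ¬ P M) (X : ℕ) :
    cz P X = cn (fun D => P (D : ℤ)) X := by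
  rw [cz_split, cn_zero (P := fun D : ℕ => P (-(D : ℤ))) (fun D h1 h2 =>
    h _ (by omega) ((sqf_neg' D).2 h2)), zero_add]

/-- the twists are negative -/
theorem pg_neg {P : Finset ℕ → Prop} {n : ℕ} {d : Fin n → ℤ} {M : ℤ}
    (h : PG (fun _ => P) (gT d) M) : M < 0 := by
  obtain ⟨D, k, h1, -, h2, h3⟩ := h ∅
  unfold gT at h3
  rw [Finset.prod_empty, mul_one] at h3
  rw [h3]
  have h4 : 0 < k ^ 2 := by positivity
  nlinarith [h1.1]

/-- the extensions are real -/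
theorem isA_pos {x : ℤ} (h : IsA x) : 0 < x := by
  obtain ⟨D, k, h1, h2, rfl⟩ := h
  have h4 : 0 < k ^ 2 := by positivity
  exact mul_pos h1.1 h4

theorem pg_pos {P : Finset ℕ → Prop} {n : ℕ} {d : Fin n → ℤ} {M D : ℤ}
    (h : PG (fun _ => P) (gT (Fin.snoc d D : Fin (n + 1) → ℤ)) M) : 0 < D := by
  obtain ⟨h1, h2⟩ := (pg_snoc d M D).1 h
  have h3 := h1 ∅
  have h4 := h2 ∅
  unfold gT at h3 h4
  rw [Finset.prod_empty, mul_one] at h3 h4
  exact isA_pos (h3.div h4)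

/-- **the proportion of the twists** -/
theorem twists_z {n : ℕ} {d : Fin n → ℤ} (hd : Ind d) (hA : ∀ i, IsA (d i)) :
    Tendsto (fun X : ℕ => cz (fun M => PG (fun _ => Gs) (gT d) M) X /
      cz (fun M => M < 0 ∧ (M % 60 = 13 ∨ M % 60 = 37)) X) atTop (𝓝 (eta ^ 2 ^ n)) ∧
    Tendsto (fun X : ℕ => cz (fun M => PG (fun _ => Gs) (gT d) M) X /
      cz (fun _ => True) X) atTop (𝓝 (5 / 192 * eta ^ 2 ^ n)) := by
  have h1 := twists hd hA
  have h2 := two_forms dens_cB h1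
  have e : ∀ X : ℕ, cz (fun M => PG (fun _ => Gs) (gT d) M) X =
      cn (fun D => PG (fun _ => Gs) (gT d) (-(D : ℤ))) X := fun X =>
    cz_neg (fun M hM _ h => absurd (pg_neg h) (by omega)) X
  simp only [e, cz_B, cz_all]
  exact ⟨h1, h2⟩

/-- **the proportion of the extensions** -/
theorem extensions_z {n : ℕ} {d : Fin n → ℤ} (hd : Ind d) {M : ℤ}
    (hM : PG (fun _ => Gs) (gT d) M) :
    Tendsto (fun X : ℕ => cz (fun D => Ind (Fin.snoc d D : Fin (n + 1) → ℤ) ∧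
        PG (fun _ => Gs) (gT (Fin.snoc d D : Fin (n + 1) → ℤ)) M) X /
      cz (fun M => 0 < M ∧ (M % 60 = 1 ∨ M % 60 = 49)) X) atTop (𝓝 (eta ^ 2 ^ n)) ∧
    Tendsto (fun X : ℕ => cz (fun D => Ind (Fin.snoc d D : Fin (n + 1) → ℤ) ∧
        PG (fun _ => Gs) (gT (Fin.snoc d D : Fin (n + 1) → ℤ)) M) X /
      cz (fun _ => True) X) atTop (𝓝 (5 / 192 * eta ^ 2 ^ n)) := by
  have h1 := extensions hd hM
  have h2 := two_forms dens_cA h1
  have e : ∀ X : ℕ, cz (fun D => Ind (Fin.snoc d D : Fin (n + 1) → ℤ) ∧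
        PG (fun _ => Gs) (gT (Fin.snoc d D : Fin (n + 1) → ℤ)) M) X =
      cn (fun D => Ind (Fin.snoc d (D : ℤ) : Fin (n + 1) → ℤ) ∧
        PG (fun _ => Gs) (gT (Fin.snoc d (D : ℤ) : Fin (n + 1) → ℤ)) M) X := fun X =>
    cz_pos (fun D hD _ h => absurd (pg_pos h.2) (by omega)) X
  simp only [e, cz_A, cz_all]
  exact ⟨h1, h2⟩

end Pool.Agent.NH4.XF
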