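import Pool.Agent.NH4.XJ.Stm
import Pool.Agent.NH4.XJ.LOW
import Pool.Agent.NH4.PF.Den2
import Pool.Agent.NH3.XD.Num
import Pool.Agent.NH3.XD.SQF

/-!
# Multiquadratic fields and the twists of `X_0(15)`: the joint law of the Redei matrices
-/

set_option autoImplicit false
set_option linter.style.haveILetI false
set_option linter.unusedVariables false

open scoped Classical

namespace Pool.Agent.NH4.XF

open Finset
open Pool.Agent.NH4.PF (WU sub_WU symm_split symm_sub ratio_sum)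
open Pool.Agent.NH4.PJ (law LawP)
open Pool.Agent.NH4.XJ (OkJ OkM nx Ev S_XJDEN)
open Pool.Agent.NH5.PR (eta)

/-- primes different from two, three, five -/
def Pm (S : Finset ℕ) : Prop := ∀ p ∈ S, p.Prime ∧ p ≠ 2 ∧ p ≠ 3 ∧ p ≠ 5

theorem Pm.mono {S T : Finset ℕ} (h : Pm T) (hST : S ⊆ T) : Pm S := fun p hp => h p (hST hp)

theorem Pm.symmDiff {S T : Finset ℕ} (hS : Pm S) (hT : Pm T) : Pm (symmDiff S T) := by
  intro p hp
  rcases Finset.mem_symmDiff.1 hp with h | h
  · exact hS p h.1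
  · exact hT p h.1

theorem Pm.union {S T : Finset ℕ} (hS : Pm S) (hT : Pm T) : Pm (S ∪ T) := by
  intro p hp
  rcases Finset.mem_union.1 hp with h | h
  · exact hS p h
  · exact hT p h

theorem Pm.pos {S : Finset ℕ} (h : Pm S) : 0 < ∏ p ∈ S, p :=
  Finset.prod_pos fun p hp => (h p hp).1.pos

theorem Pm.sqf {S : Finset ℕ} (h : Pm S) : Squarefree (∏ p ∈ S, p) := by
  refine Finset.squarefree_prod_of_pairwise_isCoprime (fun p hp q hq hpq => ?_)
    fun p hp => (h p hp).1.squarefree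
  show IsRelPrime p q
  rw [← Nat.coprime_iff_isRelPrime]
  exact (Nat.coprime_primes (h p hp).1 (h q hq).1).mpr hpq

theorem Pm.pf {S : Finset ℕ} (h : Pm S) : (∏ p ∈ S, p).primeFactors = S :=
  Nat.primeFactors_prod fun p hp => (h p hp).1

/-- a prime not dividing `60` -/
theorem p60 {p : ℕ} (hp : p.Prime) (h : ¬ p ∣ 60) : p.Prime ∧ p ≠ 2 ∧ p ≠ 3 ∧ p ≠ 5 := by
  refine ⟨hp, ?_, ?_, ?_⟩ <;> rintro rfl <;> exact h (by norm_num)

theorem p60' {p : ℕ} (hp : p.Prime ∧ p ≠ 2 ∧ p ≠ 3 ∧ p ≠ 5) : Nat.Coprime p 60 := by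
  obtain ⟨h1, h2, h3, h4⟩ := hp
  rw [Nat.Prime.coprime_iff_not_dvd h1]
  intro h
  have h5 : p ∣ 2 * 2 * 3 * 5 := by simpa using h
  rcases (Nat.Prime.dvd_mul h1).1 h5 with h5 | h5
  · rcases (Nat.Prime.dvd_mul h1).1 h5 with h5 | h5
    · rcases (Nat.Prime.dvd_mul h1).1 h5 with h5 | h5
      · exact h2 ((Nat.prime_dvd_prime_iff_eq h1 Nat.prime_two).1 h5)
      · exact h2 ((Nat.prime_dvd_prime_iff_eq h1 Nat.prime_two).1 h5)
    · exact h3 ((Nat.prime_dvd_prime_iff_eq h1 Nat.prime_three).1 h5)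
  · exact h4 ((Nat.prime_dvd_prime_iff_eq h1 (by norm_num)).1 h5)

theorem Pm.cop {S : Finset ℕ} (h : Pm S) : Nat.Coprime (∏ p ∈ S, p) 60 :=
  Nat.Coprime.prod_left fun p hp => p60' (h p hp)

/-- the prime factors of a number prime to `60` -/
theorem pm_of {D : ℕ} (h : Nat.Coprime D 60) : Pm D.primeFactors := by
  intro p hp
  have hp1 := Nat.prime_of_mem_primeFactors hp
  refine p60 hp1 fun h60 => ?_
  exact hp1.one_lt.ne' (Nat.Coprime.eq_one_of_dvd
    (Nat.Coprime.coprime_dvd_left (Nat.dvd_of_mem_primeFactors hp) h) h60)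

theorem cop_mod (D m : ℕ) : Nat.Coprime (D % m) m ↔ Nat.Coprime D m := by
  unfold Nat.Coprime
  rw [← Nat.gcd_rec, Nat.gcd_comm]

variable {M : ℕ}

/-- the modulus -/
noncomputable def md (U : Fin M → Finset ℕ) : ℕ := 60 * ∏ p ∈ WU U, p

/-- the indices: the common part and the residue of the cofactor -/
noncomputable def Idx (R0 : Finset ℕ) (U : Fin M → Finset ℕ) : Finset (Finset ℕ × ℕ) :=
  ((WU U).powerset ×ˢ range (md U)).filter fun z =>
    Nat.Coprime z.2 (md U) ∧ (z.2 * ∏ p ∈ z.1, p) % 60 ∈ R0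

theorem pm_WU {U : Fin M → Finset ℕ} (hU : ∀ t, Pm (U t)) : Pm (WU U) := by
  intro p hp
  obtain ⟨t, -, ht⟩ := Finset.mem_biUnion.1 hp
  exact hU t p ht

/-- **the decomposition** -/
theorem card_split {R0 : Finset ℕ} (hR0 : ∀ r ∈ R0, Nat.Coprime r 60) {U : Fin M → Finset ℕ}
    (hU : ∀ t, Pm (U t)) (R : Fin M → Finset ℕ → Prop) (X : ℕ) :
    ((Icc 1 X).filter fun D => Squarefree D ∧ D % 60 ∈ R0 ∧
      ∀ t, R t (symmDiff D.primeFactors (U t))).card =
      ∑ z ∈ Idx R0 U, ((Icc 1 (X / ∏ p ∈ z.1, p)).filter fun D => Squarefree D ∧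
        D % md U = z.2 ∧ ∀ t, R t (D.primeFactors ∪ symmDiff z.1 (U t))).card := by
  set W := WU U with hW
  have hWp : Pm W := pm_WU hU
  set m := md U with hm
  have hm0 : 0 < m := Nat.mul_pos (by norm_num) hWp.pos
  have h60m : 60 ∣ m := Dvd.intro _ rfl
  have hWm : (∏ p ∈ W, p) ∣ m := Dvd.intro_left _ rfl
  set F : ℕ → Finset ℕ × ℕ := fun D =>
    (D.primeFactors ∩ W, (D / ∏ p ∈ D.primeFactors ∩ W, p) % m) with hF
  have hc60 : ∀ D : ℕ, D % 60 ∈ R0 → Nat.Coprime D 60 := fun D h => (cop_mod D 60).1 (hR0 _ h)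
  -- the decomposition of a squarefree number
  have key : ∀ D : ℕ, Squarefree D →
      (∏ p ∈ D.primeFactors ∩ W, p) * (D / ∏ p ∈ D.primeFactors ∩ W, p) = D := by
    intro D hD
    refine Nat.mul_div_cancel' ?_
    calc (∏ p ∈ D.primeFactors ∩ W, p) ∣ ∏ p ∈ D.primeFactors, p :=
          Finset.prod_dvd_prod_of_subset _ _ _ Finset.inter_subset_left
      _ = D := Nat.prod_primeFactors_of_squarefree hD
  have key2 : ∀ D : ℕ, Squarefree D →
      (D / ∏ p ∈ D.primeFactors ∩ W, p) = ∏ p ∈ D.primeFactors \ W, p := by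
    intro D hD
    have h1 := key D hD
    have h2 : (∏ p ∈ D.primeFactors ∩ W, p) * ∏ p ∈ D.primeFactors \ W, p = D := by
      rw [Finset.prod_inter_mul_prod_sdiff]
      exact Nat.prod_primeFactors_of_squarefree hD
    have h0 : (∏ p ∈ D.primeFactors ∩ W, p) ≠ 0 :=
      Finset.prod_ne_zero_iff.2 fun p hp =>
        (Nat.prime_of_mem_primeFactors (Finset.mem_inter.1 hp).1).ne_zero
    exact Nat.eq_of_mul_eq_mul_left (Nat.pos_of_ne_zero h0) (h1.trans h2.symm)
  -- coprimality to the modulus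
  have hcopm : ∀ D' : ℕ, D' ≠ 0 → Nat.Coprime D' 60 → Disjoint D'.primeFactors W →
      Nat.Coprime D' m := by
    intro D' h0 h1 h2
    refine Nat.Coprime.mul_right h1 (Nat.Coprime.prod_right fun p hp => ?_)
    rw [Nat.coprime_comm, Nat.Prime.coprime_iff_not_dvd (hWp p hp).1]
    intro h3
    exact Finset.disjoint_left.1 h2 (Nat.mem_primeFactors.2 ⟨(hWp p hp).1, h3, h0⟩) hp
  have hmaps : ∀ D ∈ (Icc 1 X).filter fun D => Squarefree D ∧ D % 60 ∈ R0 ∧
      ∀ t, R t (symmDiff D.primeFactors (U t)), F D ∈ Idx R0 U := by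
    intro D hD
    obtain ⟨hD1, hs, hr, hR⟩ := Finset.mem_filter.1 hD
    have hDc := hc60 D hr
    have hDp : Pm D.primeFactors := pm_of hDc
    unfold Idx
    rw [Finset.mem_filter, Finset.mem_product, Finset.mem_powerset, Finset.mem_range]
    have e1 := key D hs
    have e2 := key2 D hs
    have e3 : (D / ∏ p ∈ D.primeFactors ∩ W, p).primeFactors = D.primeFactors \ W := by
      rw [e2]
      exact (hDp.mono Finset.sdiff_subset).pf
    have hdvd : (D / ∏ p ∈ D.primeFactors ∩ W, p) ∣ D := Dvd.intro_left _ e1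
    refine ⟨⟨Finset.inter_subset_right, Nat.mod_lt _ hm0⟩, ?_, ?_⟩
    · show Nat.Coprime ((D / ∏ p ∈ D.primeFactors ∩ W, p) % m) m
      rw [cop_mod]
      refine hcopm _ ?_ (Nat.Coprime.coprime_dvd_left hdvd hDc) ?_
      · rw [e2]
        exact (hDp.mono Finset.sdiff_subset).pos.ne'
      · rw [e3]
        exact Finset.sdiff_disjoint
    · show ((D / ∏ p ∈ D.primeFactors ∩ W, p) % m * ∏ p ∈ D.primeFactors ∩ W, p) % 60 ∈ R0
      have e4 : ((D / ∏ p ∈ D.primeFactors ∩ W, p) % m * ∏ p ∈ D.primeFactors ∩ W, p) % 60 =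
          D % 60 := by
        rw [Nat.mul_mod, Nat.mod_mod_of_dvd _ h60m, ← Nat.mul_mod, Nat.mul_comm, e1]
      rw [e4]
      exact hr
  rw [Finset.card_eq_sum_card_fiberwise hmaps]
  refine Finset.sum_congr rfl fun z hz => ?_
  obtain ⟨hz1, hz2, hz3⟩ := Finset.mem_filter.1 hz
  obtain ⟨he, hr⟩ := Finset.mem_product.1 hz1
  rw [Finset.mem_powerset] at he
  set a : ℕ := ∏ p ∈ z.1, p with ha
  have hep : Pm z.1 := hWp.mono he
  have ha0 : 0 < a := hep.pos
  have haf : a.primeFactors = z.1 := hep.pf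
  have hasq : Squarefree a := hep.sqf
  -- numbers prime to `W`
  have hcl : ∀ D : ℕ, D % m = z.2 → Nat.Coprime D m := by
    intro D h
    rw [← cop_mod, h]
    exact hz2
  have hcl2 : ∀ D : ℕ, Nat.Coprime D m → Disjoint D.primeFactors W := by
    intro D h
    rw [Finset.disjoint_left]
    intro p hp hpW
    have hp1 := Nat.prime_of_mem_primeFactors hp
    have h1 : p ∣ m := (Finset.dvd_prod_of_mem (fun p => p) hpW).trans hWm
    exact hp1.one_lt.ne' (Nat.Coprime.eq_one_of_dvd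
      (Nat.Coprime.coprime_dvd_left (Nat.dvd_of_mem_primeFactors hp) h) h1)
  refine Finset.card_bij' (fun D _ => D / a) (fun D _ => D * a) ?_ ?_ ?_ ?_
  · -- forward
    intro D hD
    obtain ⟨hD0, hFz⟩ := Finset.mem_filter.1 hD
    obtain ⟨hD1, hs, hr, hR⟩ := Finset.mem_filter.1 hD0
    have hDp : Pm D.primeFactors := pm_of (hc60 D hr)
    have e1 : D.primeFactors ∩ W = z.1 := congrArg Prod.fst hFz
    have e2 : (D / a) % m = z.2 := by
      have := congrArg Prod.snd hFz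
      rw [← this]
      show _ = (D / ∏ p ∈ D.primeFactors ∩ W, p) % m
      rw [e1]
    have e3 : D / a = ∏ p ∈ D.primeFactors \ W, p := by
      rw [← key2 D hs, e1]
    have e4 : (D / a).primeFactors = D.primeFactors \ W := by
      rw [e3]
      exact (hDp.mono Finset.sdiff_subset).pf
    have hsplit : D.primeFactors = (D / a).primeFactors ∪ z.1 := by
      rw [e4, ← e1, Finset.sdiff_union_inter]
    have hdis : Disjoint (D / a).primeFactors W := by
      rw [e4]
      exact Finset.sdiff_disjoint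
    rw [Finset.mem_filter, Finset.mem_Icc]
    have hle : D / a ≤ X / a := Nat.div_le_div_right (Finset.mem_Icc.1 hD1).2
    have hpos : 1 ≤ D / a := by
      rw [e3]
      exact (hDp.mono Finset.sdiff_subset).pos
    refine ⟨⟨hpos, hle⟩, ?_, e2, ?_⟩
    · have h1 : D / a ∣ D := Nat.div_dvd_of_dvd ⟨D / a, by
        have := key D hs
        rw [e1] at this
        exact this.symm⟩
      exact hs.squarefree_of_dvd h1
    · intro t
      have h1 := hR t
      rw [hsplit, symm_split hdis he (sub_WU U t)] at h1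
      exact h1
  · -- backward
    intro D hD
    obtain ⟨hD1, hs, hC, hR⟩ := Finset.mem_filter.1 hD
    have hcm := hcl D hC
    have hdis := hcl2 D hcm
    have hD0 : D ≠ 0 := hs.ne_zero
    have hcop : Nat.Coprime D a :=
      Nat.Coprime.coprime_dvd_right ((Finset.prod_dvd_prod_of_subset _ _ _ he).trans hWm) hcm
    have hpfm : (D * a).primeFactors = D.primeFactors ∪ z.1 := by
      rw [Nat.primeFactors_mul hD0 ha0.ne', haf]
    have hsq2 : Squarefree (D * a) := (Nat.squarefree_mul_iff).2 ⟨hcop, hs, hasq⟩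
    have hin : (D.primeFactors ∪ z.1) ∩ W = z.1 := by
      rw [Finset.union_inter_distrib_right, Finset.disjoint_iff_inter_eq_empty.1 hdis,
        Finset.empty_union, Finset.inter_eq_left.2 he]
    rw [Finset.mem_filter, Finset.mem_filter, Finset.mem_Icc]
    have hle : D * a ≤ X := (Nat.le_div_iff_mul_le ha0).1 (Finset.mem_Icc.1 hD1).2
    refine ⟨⟨⟨Nat.mul_pos (Finset.mem_Icc.1 hD1).1 ha0, hle⟩, hsq2, ?_, fun t => ?_⟩, ?_⟩
    · have h1 : (D * a) % 60 = (z.2 * a) % 60 := by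
        rw [← hC, Nat.mul_mod, Nat.mul_mod (D % m), Nat.mod_mod_of_dvd _ h60m]
      rw [h1]
      exact hz3
    · rw [hpfm, symm_split hdis he (sub_WU U t)]
      exact hR t
    · show ((D * a).primeFactors ∩ W, (D * a / ∏ p ∈ (D * a).primeFactors ∩ W, p) % m) = z
      rw [hpfm, hin, Nat.mul_div_cancel _ ha0, hC]
  · intro D hD
    obtain ⟨hD0, hFz⟩ := Finset.mem_filter.1 hD
    obtain ⟨hD1, hs, hr, hR⟩ := Finset.mem_filter.1 hD0
    have e1 : D.primeFactors ∩ W = z.1 := congrArg Prod.fst hFz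
    have h1 := key D hs
    rw [e1] at h1
    show D / a * a = D
    rw [mul_comm]
    exact h1
  · intro D hD
    exact Nat.mul_div_cancel _ ha0

end Pool.Agent.NH4.XF
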