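import Pool.Agent.NH4.XF.Cnt

/-!
# The joint law over `ℚ` for the twists of `X_0(15)`
-/

set_option autoImplicit false
set_option linter.style.haveILetI false

open scoped Classical

namespace Pool.Agent.NH4.XF

open Finset Filter Topology WeierstrassCurve
open Pool.Agent.NH4.PF (Ind pf sqf_unique)
open Pool.Agent.NH3.XD (DB KrD)
open Pool.Agent.NH5.PR (eta)
open Pool.Agent.XV.T (S_OUT RZ)
open Pool.Agent.Y687 (RankBSD)
open Pool.Agent.Y687.MQ (ZB ZB_scale mq_zero disc_ne finrank_EQ_zero)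
open Pool.Agent.Y19.QT (EK IsLFunK IsLFun)
open Pool.Agent.Z702 (sh)
open Pool.Agent.Y700 (VR)

theorem sh_delta_ne {D : ℤ} (hD : D ≠ 0) : (sh (-12987 * D ^ 2) (-263466 * D ^ 3)).Δ ≠ 0 := by
  have hDQ : (D : ℚ) ≠ 0 := by exact_mod_cast hD
  have h8 : (sh (-12987 * D ^ 2) (-263466 * D ^ 3)).Δ =
      (64 * 12987 ^ 3 - 432 * 263466 ^ 2) * (D : ℚ) ^ 6 := by
    simp only [sh, WeierstrassCurve.Δ, WeierstrassCurve.b₂, WeierstrassCurve.b₄,
      WeierstrassCurve.b₆, WeierstrassCurve.b₈]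
    push_cast
    ring
  rw [h8]
  exact mul_ne_zero (by norm_num) (pow_ne_zero _ hDQ)

/-- the change of the equation -/
theorem vr_scale (D : ℤ) {k : ℤ} (hk : k ≠ 0) :
    VR (sh (-12987 * (D * k ^ 2) ^ 2) (-263466 * (D * k ^ 2) ^ 3))
      (sh (-12987 * D ^ 2) (-263466 * D ^ 3)) (k : ℚ) 0 0 0 := by
  refine ⟨by exact_mod_cast hk, ?_, ?_, ?_, ?_, ?_⟩
  · show (k : ℚ) * 0 = 0 + 2 * 0
    ring
  · show (k : ℚ) ^ 2 * 0 = 0 - 0 * 0 + 3 * 0 - 0 ^ 2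
    ring
  · show (k : ℚ) ^ 3 * 0 = 0 + 0 * 0 + 2 * 0
    ring
  · show (k : ℚ) ^ 4 * ((-12987 * D ^ 2 : ℤ) : ℚ) = ((-12987 * (D * k ^ 2) ^ 2 : ℤ) : ℚ) - 0 * 0 +
      2 * 0 * 0 - (0 + 0 * 0) * 0 + 3 * 0 ^ 2 - 2 * 0 * 0
    push_cast
    ring
  · show (k : ℚ) ^ 6 * ((-263466 * D ^ 3 : ℤ) : ℚ) = ((-263466 * (D * k ^ 2) ^ 3 : ℤ) : ℚ) +
      0 * ((-12987 * (D * k ^ 2) ^ 2 : ℤ) : ℚ) + 0 ^ 2 * 0 + 0 ^ 3 - 0 * 0 - 0 ^ 2 - 0 * 0 * 0
    push_cast
    ring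

theorem rz_scale {D k : ℤ} (hD : D ≠ 0) (hk : k ≠ 0) : RZ (D * k ^ 2) ↔ RZ D := by
  obtain ⟨a1, a2, -⟩ := Pool.Agent.Z702.f_TRN _ _ _ _ _ _ (vr_scale D hk) (sh_delta_ne hD)
  exact and_congr a1 a2

theorem upB_ne {P : Finset ℕ → Prop} {N : ℤ} (h : UpB P N) : N ≠ 0 := by
  obtain ⟨D, k, h1, h2, h3, rfl⟩ := h
  exact mul_ne_zero h1.1.ne (pow_ne_zero 2 h3)

/-- the rank form for all representatives -/
theorem rank_of (h : S_OUT) {N : ℤ} (hN : UpB Gs N) :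
    RankBSD (-12987 * N ^ 2) (-263466 * N ^ 3) ∧ RZ N := by
  obtain ⟨D, k, h1, h2, h3, rfl⟩ := hN
  have hz : RZ D := (gs_iff h h1).2 h2
  have hab : (4 * (-12987) ^ 3 + 27 * (-263466) ^ 2 : ℤ) ≠ 0 := by norm_num
  have hZ := ZB_scale hab h1.1.ne h3 (zb_of h h1 hz)
  refine ⟨?_, (rz_scale h1.1.ne h3).2 hz⟩
  obtain ⟨F, ⟨hF, hFp⟩, hF1⟩ := hZ.1
  exact ⟨F, hF, hFp, hF1, finrank_EQ_zero hZ⟩

/-- the good numbers among the numbers which are of class `b` up to squares -/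
theorem good_iff' (h : S_OUT) {N : ℤ} (hN : UpB (fun _ => True) N) : UpB Gs N ↔ RZ N := by
  constructor
  · exact fun h1 => (rank_of h h1).2
  · intro h1
    obtain ⟨D, k, g1, -, g3, rfl⟩ := hN
    exact ⟨D, k, g1, (gs_iff h g1).1 ((rz_scale g1.1.ne g3).1 h1), g3, rfl⟩

theorem upB_self {M : ℤ} (hM : DB M) : UpB (fun _ => True) M :=
  ⟨M, 1, hM, trivial, one_ne_zero, by ring⟩

/-- all twists of a family -/
theorem pg_iff (h : S_OUT) {ι : Type} {g : ι → ℤ} (hg : ∀ t, IsA (g t)) {M : ℤ} (hM : DB M) :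
    PG (fun _ => Gs) g M ↔ ∀ t, RZ (M * g t) :=
  forall_congr' fun t => good_iff' h ((upB_self hM).mul_A (hg t))

theorem upB_neg {P : Finset ℕ → Prop} {N x : ℤ} (h : UpB P (N * x)) (hx : IsA x) : N < 0 := by
  obtain ⟨D, k, h1, -, h2, h3⟩ := h
  have h4 : 0 < k ^ 2 := by positivity
  have h5 := isA_pos hx
  by_contra hcon
  have : 0 ≤ N * x := mul_nonneg (not_lt.1 hcon) h5.le
  nlinarith [h1.1]

/-- a squarefree number whose product with a number of class `a` is of class `b` is of class `b` -/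
theorem db_of {P : Finset ℕ → Prop} {N x : ℤ} (hs : Squarefree N) (h : UpB P (N * x)) (hx : IsA x) :
    DB N := by
  have hN := upB_neg h hx
  obtain ⟨D, k, h1, -, h2, h3⟩ := h
  have h4 : UpB (fun _ => True) (D * k ^ 2) := ⟨D, k, h1, trivial, h2, rfl⟩
  have h5 := h4.mul_A hx
  rw [← h3] at h5
  obtain ⟨D', k', g1, -, g2, g3⟩ := h5
  have hx0 : x ≠ 0 := (isA_pos hx).ne'
  have e : N = D' := by
    refine sqf_unique hs g1.2.1 (k := x) (k' := k') hx0 g2 ?_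
    rw [← g3]
    ring
  rw [e]
  exact g1

theorem pg_db {ι : Type} [Nonempty ι] {P : ι → Finset ℕ → Prop} {g : ι → ℤ} (hg : ∀ t, IsA (g t))
    {M : ℤ} (hs : Squarefree M) (h : PG P g M) : DB M := by
  obtain ⟨t⟩ := ‹Nonempty ι›
  exact db_of hs (h t) (hg t)

/-- **the joint law over `ℚ`**, natural densities in the class and among all squarefree integers -/
theorem joint_z {ι : Type} [Fintype ι] [Nonempty ι] {g : ι → ℤ}
    (hg : ∀ t, IsA (g t)) (hns : ∀ t t', t ≠ t' → ¬ IsSquare (g t * g t')) (rr : ι → ℕ) :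
    Tendsto (fun X : ℕ => cz (fun M => PG (fun t => Rk (rr t)) g M) X /
      cz (fun M => M < 0 ∧ (M % 60 = 13 ∨ M % 60 = 37)) X) atTop (𝓝 (∏ t, PJ.law 0 (rr t))) ∧
    Tendsto (fun X : ℕ => cz (fun M => PG (fun t => Rk (rr t)) g M) X /
      cz (fun _ => True) X) atTop (𝓝 (5 / 192 * ∏ t, PJ.law 0 (rr t))) := by
  have h := law_twists XJ.f_XJDEN hg hns rr
  have h1 : Tendsto (fun X : ℕ => cn (fun D => PG (fun t => Rk (rr t)) g (-(D : ℤ))) X /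
      cn (fun D => D % 60 ∈ cB) X) atTop (𝓝 (∏ t, PJ.law 0 (rr t))) := by
    refine h.congr fun X => ?_
    rw [← cn_eq, ← cn_eq]
  have h2 := two_forms dens_cB h1
  have e : ∀ X : ℕ, cz (fun M => PG (fun t => Rk (rr t)) g M) X =
      cn (fun D => PG (fun t => Rk (rr t)) g (-(D : ℤ))) X := fun X =>
    cz_neg (fun M hM hs hp => absurd (pg_db hg hs hp).1 (by omega)) X
  simp only [e, cz_B, cz_all]
  exact ⟨h1, h2⟩

/-- all the twists of a family have no Selmer elements and satisfy the rank form -/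
theorem joint_zero (h : S_OUT) {ι : Type} [Fintype ι] [Nonempty ι] {g : ι → ℤ}
    (hg : ∀ t, IsA (g t)) (hns : ∀ t t', t ≠ t' → ¬ IsSquare (g t * g t')) :
    Tendsto (fun X : ℕ => cz (fun M => (M < 0 ∧ (M % 60 = 13 ∨ M % 60 = 37)) ∧ ∀ t, RZ (M * g t)) X /
      cz (fun M => M < 0 ∧ (M % 60 = 13 ∨ M % 60 = 37)) X) atTop (𝓝 (eta ^ Fintype.card ι)) ∧
    Tendsto (fun X : ℕ => cz (fun M => (M < 0 ∧ (M % 60 = 13 ∨ M % 60 = 37)) ∧ ∀ t, RZ (M * g t)) X /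
      cz (fun _ => True) X) atTop (𝓝 (5 / 192 * eta ^ Fintype.card ι)) := by
  have h1 := joint_z hg hns (fun _ => 0)
  rw [Finset.prod_const, Finset.card_univ, PJ.t_LAW.zero] at h1
  have e : ∀ X : ℕ, cz (fun M => (M < 0 ∧ (M % 60 = 13 ∨ M % 60 = 37)) ∧ ∀ t, RZ (M * g t)) X =
      cz (fun M => PG (fun _ => Rk 0) g M) X := by
    intro X
    unfold cz
    congr 2
    ext M
    simp only [Finset.mem_filter]
    refine and_congr_right fun _ => and_congr_right fun hs => ?_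
    rw [pg_rk]
    constructor
    · rintro ⟨⟨h2, h3⟩, h4⟩
      exact (pg_iff h hg ⟨h2, hs, h3⟩).2 h4
    · intro h2
      have h3 : DB M := pg_db hg hs h2
      exact ⟨⟨h3.1, h3.2.2⟩, (pg_iff h hg h3).1 h2⟩
  simp only [e]
  exact h1

end Pool.Agent.NH4.XF
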