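import Pool.Agent.NH4.XF.Den

/-!
# The joint law of the Redei matrices of the twists by a finite set of numbers
-/

set_option autoImplicit false
set_option linter.style.haveILetI false
set_option linter.unusedVariables false

open scoped Classical

namespace Pool.Agent.NH4.XF

open Finset
open Pool.Agent.NH4.PF (WU sub_WU symm_split symm_sub ratio_sum)
open Pool.Agent.NH4.PJ (law LawP)
open Pool.Agent.NH4.XJ (OkJ OkM nx Ev S_XJDEN)
open Pool.Agent.NH5.PR (eta)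

theorem odd_prod {S : Finset ℕ} (h : Pm S) : (∏ p ∈ S, p) % 2 = 1 :=
  Nat.odd_iff.1 (Finset.prod_induction _ Odd (fun a b ha hb => ha.mul hb) odd_one
    fun p hp => (h p hp).1.odd_of_ne_two (h p hp).2.1)

theorem prod_symm_nat (S T : Finset ℕ) :
    (∏ p ∈ S, p) * ∏ p ∈ T, p = (∏ p ∈ symmDiff S T, p) * (∏ p ∈ S ∩ T, p) ^ 2 := by
  have h := PF.prod_symmDiff (fun p : ℕ => (p : ℤ)) S T
  apply Nat.cast_injective (R := ℤ)
  push_cast
  exact h

theorem symm_mod4 {S T : Finset ℕ} (hS : Pm S) (r : ℕ) :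
    (r * ∏ p ∈ symmDiff S T, p) % 4 = (r * ((∏ p ∈ S, p) * ∏ p ∈ T, p)) % 4 := by
  rw [prod_symm_nat S T]
  have h1 := odd_prod (hS.mono (Finset.inter_subset_left (s₂ := T)))
  set c := ∏ p ∈ S ∩ T, p
  have h2 : c ^ 2 % 4 = 1 := by
    have h3 : c % 4 = 1 ∨ c % 4 = 3 := by omega
    rw [pow_two, Nat.mul_mod]
    rcases h3 with h3 | h3 <;> rw [h3]
  have e : r * ((∏ p ∈ symmDiff S T, p) * c ^ 2) = (r * ∏ p ∈ symmDiff S T, p) * c ^ 2 := by ring
  rw [e]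
  conv_rhs => rw [Nat.mul_mod, h2, mul_one, Nat.mod_mod]

/-- the classes modulo `60` -/
def OkR (R0 : Finset ℕ) : Prop := R0.Nonempty ∧ ∀ r ∈ R0, r < 60 ∧ Nat.Coprime r 60

variable {M : ℕ}

theorem ok_idx {R0 : Finset ℕ} {U : Fin M → Finset ℕ} (hU : ∀ t, Pm (U t))
    {z : Finset ℕ × ℕ} (hz : z ∈ Idx R0 U) : OkJ (md U) z.2 := by
  obtain ⟨hz1, hz2, hz3⟩ := Finset.mem_filter.1 hz
  obtain ⟨he, hr⟩ := Finset.mem_product.1 hz1
  exact ⟨Nat.mul_pos (by norm_num) (pm_WU hU).pos, Dvd.dvd.mul_right (by norm_num) _,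
    Finset.mem_range.1 hr, hz2⟩

theorem okM_idx {R0 : Finset ℕ} {U : Fin M → Finset ℕ} (hU : ∀ t, Pm (U t))
    (hinj : Function.Injective U) (h3 : ∀ r ∈ R0, ∀ t, (r * ∏ p ∈ U t, p) % 4 = 3)
    {z : Finset ℕ × ℕ} (hz : z ∈ Idx R0 U) :
    OkM (md U) z.2 (fun t => symmDiff z.1 (U t)) := by
  obtain ⟨hz1, hz2, hz3⟩ := Finset.mem_filter.1 hz
  obtain ⟨he, hr⟩ := Finset.mem_product.1 hz1
  rw [Finset.mem_powerset] at he
  refine ⟨fun t t' h => hinj (symmDiff_right_injective _ h), fun t u hu => ?_, fun t => ?_⟩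
  · have h1 : u ∈ WU U := symm_sub he (sub_WU U t) hu
    have h2 := pm_WU hU u h1
    exact ⟨h2.1, h2.2.1, Dvd.dvd.mul_left (Finset.dvd_prod_of_mem (fun p => p) h1) 60⟩
  · have hep : Pm z.1 := (pm_WU hU).mono he
    rw [symm_mod4 hep]
    have h4 := h3 _ hz3 t
    rw [← mul_assoc]
    rw [Nat.mul_mod, Nat.mod_mod_of_dvd _ (by norm_num : 4 ∣ 60), ← Nat.mul_mod] at h4
    exact h4

/-- the class is large -/
theorem low_R {R0 : Finset ℕ} (hR : OkR R0) : ∃ (c : ℝ) (X₀ : ℕ), 0 < c ∧ ∀ X : ℕ, X₀ ≤ X →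
    c * X ≤ (((Icc 1 X).filter fun D => Squarefree D ∧ D % 60 ∈ R0).card : ℝ) := by
  obtain ⟨⟨r, hr⟩, h⟩ := hR
  have hO : OkJ 60 r := ⟨by norm_num, by norm_num, (h r hr).1, (h r hr).2⟩
  obtain ⟨c, X₀, hc, g⟩ := XJ.t_XJLOW 60 r hO
  refine ⟨c, X₀, hc, fun X hX => (g X hX).trans ?_⟩
  have e2 := NH3.XD.LowX.card_eq 60 r hO.2.2.2 X (fun _ => True)
  rw [Finset.filter_true] at e2
  simp only [and_true] at e2
  rw [← e2]
  refine Nat.cast_le.2 (Finset.card_le_card fun D hD => ?_)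
  obtain ⟨h1, h2, h3⟩ := Finset.mem_filter.1 hD
  exact Finset.mem_filter.2 ⟨h1, h2, by rw [h3]; exact hr⟩

/-- a trivial condition -/
def TrF (_ : Fin M) (_ : Finset ℕ) : Prop := True

/-- **the joint law** -/
theorem joint (hJ : S_XJDEN) {R0 : Finset ℕ} (hR : OkR R0) {U : Fin M → Finset ℕ}
    (hU : ∀ t, Pm (U t)) (hinj : Function.Injective U)
    (h3 : ∀ r ∈ R0, ∀ t, (r * ∏ p ∈ U t, p) % 4 = 3) (rr : Fin M → ℕ) :
    Filter.Tendsto (fun X : ℕ =>
      (((Icc 1 X).filter fun D => Squarefree D ∧ D % 60 ∈ R0 ∧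
        ∀ t, nx (symmDiff D.primeFactors (U t)) = 2 ^ (rr t + 1)).card : ℝ) /
        (((Icc 1 X).filter fun D => Squarefree D ∧ D % 60 ∈ R0).card : ℝ))
      Filter.atTop (nhds (∏ t, law 0 (rr t))) := by
  have hR0 : ∀ r ∈ R0, Nat.Coprime r 60 := fun r hr => (hR.2 r hr).2
  set Nz : Finset ℕ × ℕ → ℕ → ℕ := fun z X => ((Icc 1 (X / ∏ p ∈ z.1, p)).filter fun D =>
    Squarefree D ∧ D % md U = z.2).card with hNz
  set Gz : Finset ℕ × ℕ → ℕ → ℕ := fun z X => ((Icc 1 (X / ∏ p ∈ z.1, p)).filter fun D =>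
    Squarefree D ∧ D % md U = z.2 ∧
      Ev (fun t => symmDiff z.1 (U t)) rr D.primeFactors).card with hGz
  have hN : ∀ X, ((Icc 1 X).filter fun D => Squarefree D ∧ D % 60 ∈ R0).card =
      ∑ z ∈ Idx R0 U, Nz z X := by
    intro X
    have h := card_split hR0 hU TrF X
    refine Eq.trans (congrArg Finset.card (Finset.filter_congr fun D _ => ?_)) (h.trans ?_)
    · exact ⟨fun h => ⟨h.1, h.2, fun _ => trivial⟩, fun h => ⟨h.1, h.2.1⟩⟩
    refine Finset.sum_congr rfl fun z _ => ?_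
    rw [hNz]
    refine congrArg Finset.card (Finset.filter_congr fun D _ => ?_)
    exact ⟨fun h => ⟨h.1, h.2.1⟩, fun h => ⟨h.1, h.2, fun _ => trivial⟩⟩
  have hG : ∀ X, ((Icc 1 X).filter fun D => Squarefree D ∧ D % 60 ∈ R0 ∧
      ∀ t, nx (symmDiff D.primeFactors (U t)) = 2 ^ (rr t + 1)).card =
      ∑ z ∈ Idx R0 U, Gz z X := by
    intro X
    have h := card_split hR0 hU (fun t S => nx S = 2 ^ (rr t + 1)) X
    refine (NH3.XD.card_iff fun D _ => Iff.rfl).trans (h.trans ?_)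
    refine Finset.sum_congr rfl fun z _ => ?_
    rw [hGz]
    exact NH3.XD.card_iff fun D _ => Iff.rfl
  have hmain := ratio_sum (Idx R0 U) Gz Nz (∏ t, law 0 (rr t)) ?_ ?_ ?_
  · refine hmain.congr fun X => ?_
    rw [hN X, hG X]
  · intro z hz X
    refine Finset.card_le_card fun D hD => ?_
    obtain ⟨h1, h2, h3, h4⟩ := Finset.mem_filter.1 hD
    exact Finset.mem_filter.2 ⟨h1, h2, h3⟩
  · intro z hz
    have h1 := hJ M (md U) z.2 (fun t => symmDiff z.1 (U t)) rr (ok_idx hU hz)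
      (okM_idx hU hinj h3 hz)
    have hapos : 0 < ∏ p ∈ z.1, p := ((pm_WU hU).mono (Finset.mem_powerset.1
      (Finset.mem_product.1 (Finset.mem_filter.1 hz).1).1)).pos
    exact h1.comp (Nat.tendsto_div_const_atTop hapos.ne')
  · obtain ⟨c, X₀, hc, hX⟩ := low_R hR
    filter_upwards [Filter.eventually_ge_atTop (max X₀ 1)] with X hX1
    have h1 := hX X (le_trans (le_max_left _ _) hX1)
    have h2 : 1 ≤ X := le_trans (le_max_right _ _) hX1
    have h3 : (0 : ℝ) < X := by exact_mod_cast h2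
    have h4 : 0 < c * X := mul_pos hc h3
    rw [hN X] at h1
    exact_mod_cast lt_of_lt_of_le h4 h1

end Pool.Agent.NH4.XF
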