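import Pool.Agent.NH4.XF.Fld
import Pool.Agent.NH4.XJ.Fin
import Pool.Agent.XV.T.Out
import Pool.Agent.NH5.LK.Rank
import Pool.Agent.Y687.MQ.Crit

/-!
# Multiquadratic fields and the twists of `X_0(15)`: the parts of the main theorem
-/

set_option autoImplicit false
set_option linter.style.haveILetI false

open scoped Classical

namespace Pool.Agent.NH4.XF

open Finset Filter Topology
open Pool.Agent.NH4.PF (Ind pf)
open Pool.Agent.NH3.XD (DB KrD)
open Pool.Agent.NH5.PR (eta)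
open Pool.Agent.XV.T (S_OUT RZ)
open Pool.Agent.Y687 (RankBSD)
open Pool.Agent.Y687.MQ (ZB ZB_scale mq_zero disc_ne)
open Pool.Agent.Y19.QT (EK IsLFunK IsLFun)

theorem gs_iff (h : S_OUT) {D : ℤ} (hD : DB D) : RZ D ↔ Gs (pf D) := by
  rw [(h D hD).2.2.1]
  exact NH3.XD.kr_iff fun p hp => ⟨((db_set hD).1 p hp).1, ((db_set hD).1 p hp).2.1⟩

theorem pf_ne {D : ℤ} (hD : DB D) : (pf D).Nonempty := by
  rw [Finset.nonempty_iff_ne_empty]
  intro h0
  obtain ⟨-, h1, h2⟩ := db_set hD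
  rw [h0, Finset.prod_empty, mem_cB] at h2
  omega

/-- the `L`-function and the points -/
theorem zb_of (h : S_OUT) {D : ℤ} (hD : DB D) (hz : RZ D) :
    ZB (-12987 * D ^ 2) (-263466 * D ^ 3) := by
  obtain ⟨F, hF, hFp, hF1, -⟩ := (h D hD).2.2.2.1 hz
  refine ⟨⟨F, ⟨hF, hFp⟩, hF1⟩, NH5.LK.finite_pts ?_ hz.1⟩
  exact disc_ne (by norm_num) hD.1.ne

/-- the good numbers -/
theorem upB_good (h : S_OUT) {N : ℤ} : UpB Gs N ↔
    ∃ D k : ℤ, (DB D ∧ RZ D) ∧ k ≠ 0 ∧ N = D * k ^ 2 := by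
  constructor
  · rintro ⟨D, k, h1, h2, h3, h4⟩
    exact ⟨D, k, ⟨h1, (gs_iff h h1).2 h2⟩, h3, h4⟩
  · rintro ⟨D, k, ⟨h1, h2⟩, h3, h4⟩
    exact ⟨D, k, h1, (gs_iff h h1).1 h2, h3, h4⟩

theorem upB_rk {N : ℤ} : UpB (Rk 0) N ↔ UpB Gs N := by
  constructor
  · rintro ⟨D, k, h1, h2, h3, h4⟩
    exact ⟨D, k, h1, (rk_zero (pf_ne h1)).1 h2, h3, h4⟩
  · rintro ⟨D, k, h1, h2, h3, h4⟩
    exact ⟨D, k, h1, (rk_zero (pf_ne h1)).2 h2, h3, h4⟩

/-- **the theorem over multiquadratic fields** -/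
theorem field_zero (h : S_OUT) {n : ℕ} {M : ℤ} {d : Fin n → ℤ}
    (hP : PG (fun _ => Gs) (gT d) M) (hind : Ind d) (K : Type)
    [Field K] [NumberField K] (x : Fin n → K) (hx : ∀ i, x i ^ 2 = (d i : K))
    (hK : IntermediateField.adjoin ℚ (Set.range x) = ⊤) :
    (∃ F : ℂ → ℂ, IsLFunK K (-12987 * M ^ 2) (-263466 * M ^ 3) (∏ i, d i) F ∧ F 1 ≠ 0) ∧
      Finite (EK K (-12987 * M ^ 2) (-263466 * M ^ 3)) := by
  have hab : (4 * (-12987) ^ 3 + 27 * (-263466) ^ 2 : ℤ) ≠ 0 := by norm_num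
  have hM : M ≠ 0 := by
    obtain ⟨D, k, h1, -, h2, h3⟩ := hP ∅
    unfold gT at h3
    rw [Finset.prod_empty, mul_one] at h3
    rw [h3]
    exact mul_ne_zero h1.1.ne (pow_ne_zero 2 h2)
  refine mq_zero hind (disc_ne hab hM) ?_ K x hx hK
  intro S
  obtain ⟨D, k, h1, h2, h3, h4⟩ := hP S
  have e1 : -12987 * M ^ 2 * (∏ i ∈ S, d i) ^ 2 = -12987 * (D * k ^ 2) ^ 2 := by
    rw [← h4]; unfold gT; ring
  have e2 : -263466 * M ^ 3 * (∏ i ∈ S, d i) ^ 3 = -263466 * (D * k ^ 2) ^ 3 := by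
    rw [← h4]; unfold gT; ring
  rw [e1, e2]
  exact ZB_scale hab h1.1.ne h3 (zb_of h h1 ((gs_iff h h1).2 h2))

/-! ### densities -/

/-- the number of the squarefree `D ≤ X` with a property -/
noncomputable def cn (P : ℕ → Prop) (X : ℕ) : ℝ :=
  (((Icc 1 X).filter fun D : ℕ => Squarefree D ∧ P D).card : ℝ)

theorem cn_congr {P Q : ℕ → Prop} (h : ∀ D, Squarefree D → (P D ↔ Q D)) (X : ℕ) :
    cn P X = cn Q X := by
  unfold cn
  congr 1
  exact NH3.XD.card_iff fun D _ => and_congr_right fun hs => h D hs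

theorem dens_all : Tendsto (fun X : ℕ => cn (fun _ => True) X / X) atTop (𝓝 (6 / Real.pi ^ 2)) := by
  have h := NH3.XD.t_SQF 1 0 (by norm_num) (by norm_num)
  have e : NH3.XD.dens 1 = 6 / Real.pi ^ 2 := by
    unfold NH3.XD.dens
    simp
  rw [e] at h
  refine h.congr fun X => ?_
  unfold cn
  congr 2
  refine NH3.XD.card_iff fun D _ => and_congr_right fun hs => ?_
  rw [Nat.mod_one]
  simp

theorem dens_60 : NH3.XD.dens 60 = 5 / 192 * (6 / Real.pi ^ 2) := by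
  have e : (60 : ℕ).primeFactors = {2, 3, 5} := by decide +kernel
  unfold NH3.XD.dens
  rw [e]
  rw [Finset.prod_insert (by decide), Finset.prod_insert (by decide), Finset.prod_singleton]
  push_cast
  ring

theorem dens_R {a b : ℕ} (ha : a < 60) (hb : b < 60) (hca : Nat.Coprime a 60)
    (hcb : Nat.Coprime b 60) (hab : a ≠ b) :
    Tendsto (fun X : ℕ => cn (fun D => D % 60 ∈ ({a, b} : Finset ℕ)) X / X) atTop
      (𝓝 (2 * (5 / 192 * (6 / Real.pi ^ 2)))) := by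
  have h1 := NH3.XD.t_SQF 60 a (by norm_num) hca
  have h2 := NH3.XD.t_SQF 60 b (by norm_num) hcb
  rw [dens_60] at h1 h2
  have h3 := h1.add h2
  rw [← two_mul] at h3
  refine h3.congr fun X => ?_
  rw [← add_div]
  congr 1
  unfold cn
  rw [← Nat.cast_add]
  congr 1
  rw [← Finset.card_union_of_disjoint]
  · congr 1
    ext D
    simp only [Finset.mem_union, Finset.mem_filter, Finset.mem_insert, Finset.mem_singleton,
      Nat.mod_eq_of_lt ha, Nat.mod_eq_of_lt hb]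
    tauto
  · rw [Finset.disjoint_left]
    intro D hD hD'
    have g1 := (Finset.mem_filter.1 hD).2.2
    have g2 := (Finset.mem_filter.1 hD').2.2
    rw [g1, Nat.mod_eq_of_lt ha, Nat.mod_eq_of_lt hb] at g2
    exact hab g2

/-- the proportion in the class and among all squarefree numbers of both signs -/
theorem two_forms {R0 : Finset ℕ} (hR : Tendsto (fun X : ℕ => cn (fun D => D % 60 ∈ R0) X / X) atTop
      (𝓝 (2 * (5 / 192 * (6 / Real.pi ^ 2))))) {P : ℕ → Prop} {c : ℝ}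
    (h : Tendsto (fun X : ℕ => cn P X / cn (fun D => D % 60 ∈ R0) X) atTop (𝓝 c)) :
    Tendsto (fun X : ℕ => cn P X / (2 * cn (fun _ => True) X)) atTop (𝓝 (5 / 192 * c)) := by
  have hpi : (0 : ℝ) < Real.pi ^ 2 := by positivity
  have h1 := (h.mul hR).div (dens_all.const_mul 2) (by positivity)
  have e : c * (2 * (5 / 192 * (6 / Real.pi ^ 2))) / (2 * (6 / Real.pi ^ 2)) = 5 / 192 * c := by
    field_simp
  rw [e] at h1
  have h0 : (0 : ℝ) < 2 * (5 / 192 * (6 / Real.pi ^ 2)) := by positivity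
  refine h1.congr' ?_
  filter_upwards [hR.eventually_const_lt h0, eventually_gt_atTop 0] with X g1 g2
  have g3 : (0 : ℝ) < X := by exact_mod_cast g2
  have g4 : 0 < cn (fun D => D % 60 ∈ R0) X := by
    by_contra hcon
    exact absurd g1 (not_lt.2 (div_nonpos_of_nonpos_of_nonneg (not_lt.1 hcon) g3.le))
  show cn P X / cn (fun D => D % 60 ∈ R0) X * (cn (fun D => D % 60 ∈ R0) X / X) /
    (2 * (cn (fun _ => True) X / X)) = _
  rw [div_mul_div_cancel₀ g4.ne', mul_div_assoc', div_div_div_cancel_right₀ g3.ne']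

theorem dens_cB : Tendsto (fun X : ℕ => cn (fun D => D % 60 ∈ cB) X / X) atTop
      (𝓝 (2 * (5 / 192 * (6 / Real.pi ^ 2)))) :=
  dens_R (by norm_num) (by norm_num) (by norm_num) (by norm_num) (by norm_num)

theorem dens_cA : Tendsto (fun X : ℕ => cn (fun D => D % 60 ∈ cA) X / X) atTop
      (𝓝 (2 * (5 / 192 * (6 / Real.pi ^ 2)))) :=
  dens_R (by norm_num) (by norm_num) (by norm_num) (by norm_num) (by norm_num)

end Pool.Agent.NH4.XF
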