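import Pool.Agent.NH4.XF.Main

/-!
# Multiquadratic fields and the twists of `X_0(15)`: the proportions
-/

set_option autoImplicit false
set_option linter.style.haveILetI false

open scoped Classical

namespace Pool.Agent.NH4.XF

open Finset Filter Topology
open Pool.Agent.NH4.PF (Ind pf sqf_unique)
open Pool.Agent.NH3.XD (DB KrD)
open Pool.Agent.NH5.PR (eta)

theorem prod_eta (n : ℕ) : ∏ _t : Finset (Fin n), PJ.law 0 0 = eta ^ 2 ^ n := by
  rw [Finset.prod_const, Finset.card_univ, Fintype.card_finset, Fintype.card_fin,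
    PJ.t_LAW.zero]

theorem cn_eq (P : ℕ → Prop) {i : DecidablePred fun D : ℕ => Squarefree D ∧ P D} (X : ℕ) :
    ((((Icc 1 X).filter fun D : ℕ => Squarefree D ∧ P D).card : ℕ) : ℝ) = cn P X := by
  unfold cn
  congr 1
  exact NH3.XD.card_iff fun D _ => Iff.rfl

theorem pg_rk {ι : Type} {g : ι → ℤ} {M : ℤ} :
    PG (fun _ => Rk 0) g M ↔ PG (fun _ => Gs) g M := forall_congr' fun _ => upB_rk

/-- **the proportion of the twists** -/
theorem twists {n : ℕ} {d : Fin n → ℤ} (hd : Ind d) (hA : ∀ i, IsA (d i)) :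
    Tendsto (fun X : ℕ => cn (fun D => PG (fun _ => Gs) (gT d) (-(D : ℤ))) X /
      cn (fun D => D % 60 ∈ cB) X) atTop (𝓝 (eta ^ 2 ^ n)) := by
  have h := law_twists XJ.f_XJDEN (g := gT d) (isA_prod hA) (gT_ns hd) (fun _ => 0)
  rw [prod_eta] at h
  refine h.congr fun X => ?_
  show _ = cn (fun D => PG (fun _ => Gs) (gT d) (-(D : ℤ))) X / cn (fun D => D % 60 ∈ cB) X
  have e : cn (fun D => PG (fun _ => Rk 0) (gT d) (-(D : ℤ))) X =
      cn (fun D => PG (fun _ => Gs) (gT d) (-(D : ℤ))) X := cn_congr (fun D _ => pg_rk) X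
  rw [← e, ← cn_eq, ← cn_eq]

theorem pg_snoc {P : Finset ℕ → Prop} {n : ℕ} (d : Fin n → ℤ) (M D : ℤ) :
    PG (fun _ => P) (gT (Fin.snoc d D : Fin (n + 1) → ℤ)) M ↔
      (PG (fun _ => P) (gT d) M ∧ PG (fun _ => P) (gT d) (M * D)) := by
  unfold PG gT
  rw [PF.prod_snoc_iff d D (fun z => UpB P (M * z))]
  simp only [mul_assoc]

/-- the exceptional numbers -/
theorem exc {n : ℕ} {d : Fin n → ℤ} (hd : Ind d) : ∃ E : Finset ℕ, ∀ D : ℕ, Squarefree D →
    D ∉ E → Ind (Fin.snoc d (D : ℤ) : Fin (n + 1) → ℤ) := by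
  have h0 : ∀ i, d i ≠ 0 := by
    intro i h0
    refine hd {i} (Finset.singleton_nonempty i) ?_
    rw [Finset.prod_singleton, h0]
    exact ⟨0, by ring⟩
  have hT0 : ∀ T : Finset (Fin n), ∏ i ∈ T, d i ≠ 0 := fun T =>
    Finset.prod_ne_zero_iff.2 fun i _ => h0 i
  choose G k hG hk he using fun T : Finset (Fin n) => PF.exists_sqf _ (hT0 T)
  refine ⟨univ.image fun T => (G T).natAbs, fun D hs hDE => ?_⟩
  refine PF.ind_snoc hd fun T hsq => hDE (Finset.mem_image.2 ⟨T, Finset.mem_univ _, ?_⟩)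
  obtain ⟨w, hw⟩ := hsq
  have hs' : Squarefree (D : ℤ) := Int.squarefree_natCast.2 hs
  have hw0 : w ≠ 0 := by
    rintro rfl
    rw [mul_zero] at hw
    exact mul_ne_zero hs'.ne_zero (hT0 T) hw
  have h5 : (D : ℤ) = G T := by
    refine sqf_unique hs' (hG T) (k := G T * k T) (k' := w) (mul_ne_zero (hG T).ne_zero (hk T))
      hw0 ?_
    rw [he T] at hw
    linear_combination (G T) * hw
  show (G T).natAbs = D
  rw [← h5, Int.natAbs_natCast]

theorem cn_mono {P Q : ℕ → Prop} (h : ∀ D, Squarefree D → P D → Q D) (X : ℕ) :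
    cn P X ≤ cn Q X := by
  unfold cn
  refine Nat.cast_le.2 (Finset.card_le_card fun D hD => ?_)
  obtain ⟨h1, h2, h3⟩ := Finset.mem_filter.1 hD
  exact Finset.mem_filter.2 ⟨h1, h2, h D h2 h3⟩

theorem cn_exc {P Q : ℕ → Prop} (E : Finset ℕ) (h : ∀ D, Squarefree D → Q D → D ∉ E → P D)
    (X : ℕ) : cn Q X ≤ cn P X + E.card := by
  unfold cn
  have h1 : ((Icc 1 X).filter fun D : ℕ => Squarefree D ∧ Q D).card ≤
      ((Icc 1 X).filter fun D : ℕ => Squarefree D ∧ P D).card + E.card := by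
    refine (Finset.card_le_card (t := ((Icc 1 X).filter fun D : ℕ => Squarefree D ∧ P D) ∪ E)
      fun D hD => ?_).trans (Finset.card_union_le _ _)
    obtain ⟨h1, h2, h3⟩ := Finset.mem_filter.1 hD
    rw [Finset.mem_union, Finset.mem_filter]
    by_cases hE : D ∈ E
    · exact Or.inr hE
    · exact Or.inl ⟨h1, h2, h D h2 h3 hE⟩
  exact_mod_cast h1

/-- **the proportion of the extensions** -/
theorem extensions {n : ℕ} {d : Fin n → ℤ} (hd : Ind d) {M : ℤ}
    (hM : PG (fun _ => Gs) (gT d) M) :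
    Tendsto (fun X : ℕ => cn (fun D => Ind (Fin.snoc d (D : ℤ) : Fin (n + 1) → ℤ) ∧
        PG (fun _ => Gs) (gT (Fin.snoc d (D : ℤ) : Fin (n + 1) → ℤ)) M) X /
      cn (fun D => D % 60 ∈ cA) X) atTop (𝓝 (eta ^ 2 ^ n)) := by
  have h := law_ext XJ.f_XJDEN (g := gT d) (M := M) (P := fun _ => Gs) hM (gT_ns hd) (fun _ => 0)
  rw [prod_eta] at h
  have h1 : Tendsto (fun X : ℕ => cn (fun D => PG (fun _ => Gs) (gT d) (M * D)) X /
      cn (fun D => D % 60 ∈ cA) X) atTop (𝓝 (eta ^ 2 ^ n)) := by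
    refine h.congr fun X => ?_
    have e : cn (fun D => PG (fun _ => Rk 0) (gT d) (M * D)) X =
      cn (fun D => PG (fun _ => Gs) (gT d) (M * D)) X := cn_congr (fun D _ => pg_rk) X
    rw [← e, ← cn_eq, ← cn_eq]
  obtain ⟨E, hE⟩ := exc hd
  have hN : Tendsto (fun X : ℕ => cn (fun D => D % 60 ∈ cA) X) atTop atTop := by
    obtain ⟨c, X₀, hc, g⟩ := low_R okR_cA
    refine tendsto_atTop_mono' _ ?_ ((tendsto_natCast_atTop_atTop (R := ℝ)).const_mul_atTop hc)
    filter_upwards [eventually_ge_atTop X₀] with X hX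
    rw [← cn_eq]
    exact g X hX
  have hE0 : Tendsto (fun X : ℕ => (E.card : ℝ) / cn (fun D => D % 60 ∈ cA) X) atTop (𝓝 0) :=
    hN.const_div_atTop _
  refine tendsto_of_tendsto_of_tendsto_of_le_of_le (by simpa using h1.sub hE0) h1 ?_ ?_
  · intro X
    show cn (fun D => PG (fun _ => Gs) (gT d) (M * D)) X / cn (fun D => D % 60 ∈ cA) X -
      (E.card : ℝ) / cn (fun D => D % 60 ∈ cA) X ≤ _
    rw [← sub_div]
    refine div_le_div_of_nonneg_right ?_ (Nat.cast_nonneg _)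
    have := cn_exc (P := fun D : ℕ => Ind (Fin.snoc d (D : ℤ) : Fin (n + 1) → ℤ) ∧
        PG (fun _ => Gs) (gT (Fin.snoc d (D : ℤ) : Fin (n + 1) → ℤ)) M)
      (Q := fun D : ℕ => PG (fun _ => Gs) (gT d) (M * D)) E
      (fun D hs h2 h3 => ⟨hE D hs h3, (pg_snoc d M D).2 ⟨hM, h2⟩⟩) X
    linarith
  · intro X
    refine div_le_div_of_nonneg_right ?_ (Nat.cast_nonneg _)
    exact cn_mono (fun D hs h2 => ((pg_snoc d M D).1 h2.2).2) X

end Pool.Agent.NH4.XF
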