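import Pool.Agent.NH4.XF.Law
import Pool.Agent.NH4.PF.Fld

/-!
# Multiquadratic fields and the twists of `X_0(15)`: square classes
-/

set_option autoImplicit false
set_option linter.style.haveILetI false
set_option linter.unusedVariables false

open scoped Classical

namespace Pool.Agent.NH4.XF

open Finset
open Pool.Agent.NH4.PF (sqf_unique isSquare_of_mul Ind pf div_sq)
open Pool.Agent.NH3.XD (DB)

/-- the class `b` -/
def cB : Finset ℕ := {23, 47}

/-- the class `a` -/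
def cA : Finset ℕ := {1, 49}

/-- the number of a set of primes -/
def pz (S : Finset ℕ) : ℤ := ((∏ p ∈ S, p : ℕ) : ℤ)

theorem Pm.pz_pos {S : Finset ℕ} (h : Pm S) : 0 < pz S := by
  unfold pz
  exact_mod_cast h.pos

theorem Pm.pz_ne {S : Finset ℕ} (h : Pm S) : pz S ≠ 0 := h.pz_pos.ne'

theorem Pm.pz_sqf {S : Finset ℕ} (h : Pm S) : Squarefree (pz S) := by
  unfold pz
  rw [Int.squarefree_natCast]
  exact h.sqf

theorem pz_mul (S T : Finset ℕ) : pz S * pz T = pz (symmDiff S T) * pz (S ∩ T) ^ 2 := by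
  unfold pz
  exact_mod_cast prod_symm_nat S T

theorem mem_cB {x : ℕ} : x ∈ cB ↔ (x = 23 ∨ x = 47) := by
  unfold cB
  simp

theorem mem_cA {x : ℕ} : x ∈ cA ↔ (x = 1 ∨ x = 49) := by
  unfold cA
  simp

/-- multiplication by a square does not change the class -/
theorem sq_cB : ∀ x c : Fin 60, Nat.Coprime c.1 60 →
    ((x.1 * c.1 ^ 2) % 60 ∈ cB ↔ x.1 ∈ cB) := by
  decide

theorem sq_cB' (x c : ℕ) (hc : Nat.Coprime c 60) : ((x * c ^ 2) % 60 ∈ cB ↔ x % 60 ∈ cB) := by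
  have h := sq_cB ⟨x % 60, Nat.mod_lt _ (by norm_num)⟩ ⟨c % 60, Nat.mod_lt _ (by norm_num)⟩
    ((cop_mod c 60).2 hc)
  have e : (x * c ^ 2) % 60 = (x % 60 * (c % 60) ^ 2) % 60 := by
    rw [Nat.mul_mod, Nat.pow_mod, Nat.mul_mod (x % 60), Nat.mod_mod, ← Nat.pow_mod, Nat.pow_mod c]
    simp [Nat.pow_mod]
  rw [e]
  exact h

/-- the class of the symmetric difference -/
theorem symm_cB {S T : Finset ℕ} (hS : Pm S) : ((∏ p ∈ symmDiff S T, p) % 60 ∈ cB ↔
    ((∏ p ∈ S, p) * ∏ p ∈ T, p) % 60 ∈ cB) := by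
  rw [prod_symm_nat, sq_cB' _ _ (hS.mono Finset.inter_subset_left).cop]

/-- the discriminants of the class `b` as sets -/
theorem db_set {D : ℤ} (h : DB D) : Pm (pf D) ∧ D = -pz (pf D) ∧ (∏ p ∈ pf D, p) % 60 ∈ cB := by
  obtain ⟨h1, h2, h3⟩ := h
  have hs : Squarefree D.natAbs := Int.squarefree_natAbs.2 h2
  have e1 : ∏ p ∈ pf D, p = D.natAbs := Nat.prod_primeFactors_of_squarefree hs
  have e2 : D.natAbs % 60 = 23 ∨ D.natAbs % 60 = 47 := by omega
  have hc : Nat.Coprime D.natAbs 60 := by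
    rw [← cop_mod]
    rcases e2 with h | h <;> rw [h] <;> decide
  refine ⟨pm_of hc, ?_, ?_⟩
  · unfold pz
    rw [e1]
    omega
  · rw [e1, mem_cB]
    exact e2

theorem set_db {S : Finset ℕ} (hS : Pm S) (h : (∏ p ∈ S, p) % 60 ∈ cB) :
    DB (-pz S) ∧ pf (-pz S) = S := by
  have h1 := hS.pz_pos
  rw [mem_cB] at h
  refine ⟨⟨by omega, ?_, ?_⟩, ?_⟩
  · rw [← Int.squarefree_natAbs, Int.natAbs_neg, Int.squarefree_natAbs]
    exact hS.pz_sqf
  · unfold pz
    omega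
  · unfold pf
    rw [Int.natAbs_neg]
    unfold pz
    rw [Int.natAbs_natCast]
    exact hS.pf

/-- up to squares a discriminant of the class `b` with the property `P` -/
def UpB (P : Finset ℕ → Prop) (N : ℤ) : Prop :=
  ∃ D k : ℤ, DB D ∧ P (pf D) ∧ k ≠ 0 ∧ N = D * k ^ 2

theorem upB_iff {P : Finset ℕ → Prop} {S : Finset ℕ} (hS : Pm S) {N k : ℤ} (hk : k ≠ 0)
    (h : N = -pz S * k ^ 2) : UpB P N ↔ ((∏ p ∈ S, p) % 60 ∈ cB ∧ P S) := by
  have hsq : Squarefree (-pz S) := by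
    rw [← Int.squarefree_natAbs, Int.natAbs_neg, Int.squarefree_natAbs]
    exact hS.pz_sqf
  constructor
  · rintro ⟨D, m, hD, hP, hm, he⟩
    have h1 : D = -pz S := sqf_unique hD.2.1 hsq hm hk (by rw [← he, h])
    obtain ⟨g1, g2, g3⟩ := db_set hD
    have e : pf D = S := by
      rw [h1]
      unfold pf
      rw [Int.natAbs_neg]
      unfold pz
      rw [Int.natAbs_natCast]
      exact hS.pf
    rw [e] at hP g3
    exact ⟨g3, hP⟩
  · rintro ⟨h1, h2⟩
    obtain ⟨g1, g2⟩ := set_db hS h1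
    exact ⟨-pz S, k, g1, by rw [g2]; exact h2, hk, h⟩

theorem UpB.mono {P Q : Finset ℕ → Prop} (h : ∀ S, P S → Q S) {N : ℤ} (hN : UpB P N) : UpB Q N := by
  obtain ⟨D, k, h1, h2, h3, h4⟩ := hN
  exact ⟨D, k, h1, h _ h2, h3, h4⟩

/-- all the numbers `M g_t` have the properties -/
def PG {ι : Type} (P : ι → Finset ℕ → Prop) (g : ι → ℤ) (M : ℤ) : Prop :=
  ∀ t, UpB (P t) (M * g t)

/-- the condition in terms of the sets of primes -/
theorem PG_iff {ι : Type} [Nonempty ι] {P : ι → Finset ℕ → Prop} {g : ι → ℤ} {N0 : ℤ}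
    {A R0 : Finset ℕ} (hA : ∀ u ∈ A, ∀ r < 60, ((r * u) % 60 ∈ cB ↔ r ∈ R0)) {U : ι → Finset ℕ}
    (hU : ∀ t, Pm (U t) ∧ (∏ p ∈ U t, p) % 60 ∈ A ∧
      ∃ k : ℤ, k ≠ 0 ∧ N0 * g t = -pz (U t) * k ^ 2)
    {D : ℕ} (hD : Squarefree D) : PG P g (N0 * D) ↔
      (D % 60 ∈ R0 ∧ ∀ t, P t (symmDiff D.primeFactors (U t))) := by
  have hcls : ∀ t, (D * ∏ p ∈ U t, p) % 60 ∈ cB ↔ D % 60 ∈ R0 := by
    intro t
    rw [Nat.mul_mod]
    exact hA _ (hU t).2.1 _ (Nat.mod_lt _ (by norm_num))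
  -- the case of a number prime to `60`
  have key : Pm D.primeFactors → ∀ t, (UpB (P t) (N0 * D * g t) ↔
      (D % 60 ∈ R0 ∧ P t (symmDiff D.primeFactors (U t)))) := by
    intro hDp t
    obtain ⟨h1, h2, k, hk, he⟩ := hU t
    have hDpr : ∏ p ∈ D.primeFactors, p = D := Nat.prod_primeFactors_of_squarefree hD
    have hDz : pz D.primeFactors = D := by
      unfold pz
      rw [hDpr]
    have e1 : N0 * D * g t =
        -pz (symmDiff D.primeFactors (U t)) * (pz (D.primeFactors ∩ U t) * k) ^ 2 := by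
      have h3 := pz_mul D.primeFactors (U t)
      rw [hDz] at h3
      linear_combination (D : ℤ) * he - k ^ 2 * h3
    have hne : pz (D.primeFactors ∩ U t) * k ≠ 0 :=
      mul_ne_zero (hDp.mono Finset.inter_subset_left).pz_ne hk
    rw [upB_iff (hDp.symmDiff h1) hne e1, symm_cB hDp, hDpr, hcls t]
  obtain ⟨t₀⟩ := ‹Nonempty ι›
  constructor
  · intro h
    have hDp : Pm D.primeFactors := by
      obtain ⟨D', m, hD', hP, hm, he⟩ := h t₀
      obtain ⟨h1, h2, k, hk, he2⟩ := hU t₀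
      obtain ⟨g1, g2, g3⟩ := db_set hD'
      have h3 := pz_mul (pf D') (U t₀)
      obtain ⟨w, hw, e⟩ := div_sq (A := (D : ℤ)) (E := pz (symmDiff (pf D') (U t₀)))
        (x := pz (U t₀) * k) (y := pz (pf D' ∩ U t₀) * m) (g1.symmDiff h1).pz_sqf
        (mul_ne_zero h1.pz_ne hk) (mul_ne_zero (g1.mono Finset.inter_subset_left).pz_ne hm) (by
          rw [g2] at he
          linear_combination ((D : ℤ) * pz (U t₀)) * he2 - pz (U t₀) * he + m ^ 2 * h3)
      have e2 : (D : ℤ) = pz (symmDiff (pf D') (U t₀)) := by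
        refine sqf_unique (Int.squarefree_natCast.2 hD) (g1.symmDiff h1).pz_sqf one_ne_zero hw ?_
        rw [one_pow, mul_one]
        exact e
      have e3 : D = ∏ p ∈ symmDiff (pf D') (U t₀), p := by
        unfold pz at e2
        exact_mod_cast e2
      rw [e3, (g1.symmDiff h1).pf]
      exact g1.symmDiff h1
    exact ⟨((key hDp t₀).1 (h t₀)).1, fun t => ((key hDp t).1 (h t)).2⟩
  · rintro ⟨h1, h2⟩ t
    have hDc : Nat.Coprime D 60 := by
      by_contra hc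
      have h3 := (hcls t₀).2 h1
      have h4 : Nat.Coprime (D * ∏ p ∈ U t₀, p) 60 := by
        rw [← cop_mod]
        rw [mem_cB] at h3
        rcases h3 with h | h <;> rw [h] <;> decide
      exact hc (Nat.Coprime.coprime_mul_right h4)
    exact (key (pm_of hDc) t).2 ⟨h1, h2 t⟩

/-- the sets of different square classes are different -/
theorem inj_U {ι : Type} {g : ι → ℤ} {N0 : ℤ} (h0 : N0 ≠ 0)
    (hns : ∀ t t', t ≠ t' → ¬ IsSquare (g t * g t')) {U : ι → Finset ℕ}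
    (hU : ∀ t, ∃ k : ℤ, k ≠ 0 ∧ N0 * g t = -pz (U t) * k ^ 2) : Function.Injective U := by
  intro t t' h
  by_contra hne
  obtain ⟨k, hk, e⟩ := hU t
  obtain ⟨k', hk', e'⟩ := hU t'
  rw [← h] at e'
  refine hns t t' hne (isSquare_of_mul h0 (z := pz (U t) * k * k') ?_)
  linear_combination (N0 * g t') * e - pz (U t) * k ^ 2 * e'

/-- **the law for a finite family** -/
theorem law_G (hJ : XJ.S_XJDEN) {ι : Type} [Fintype ι] [Nonempty ι] {g : ι → ℤ} {N0 : ℤ}
    {A R0 : Finset ℕ} (h0 : N0 ≠ 0) (hA : ∀ u ∈ A, ∀ r < 60, ((r * u) % 60 ∈ cB ↔ r ∈ R0))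
    (hR : OkR R0) (hns : ∀ t t', t ≠ t' → ¬ IsSquare (g t * g t')) {U : ι → Finset ℕ}
    (hU : ∀ t, Pm (U t) ∧ (∏ p ∈ U t, p) % 60 ∈ A ∧
      ∃ k : ℤ, k ≠ 0 ∧ N0 * g t = -pz (U t) * k ^ 2) (rr : ι → ℕ) :
    Filter.Tendsto (fun X : ℕ =>
      (((Icc 1 X).filter fun D : ℕ => Squarefree D ∧
        PG (fun t S => XJ.nx S = 2 ^ (rr t + 1)) g (N0 * D)).card : ℝ) /
        (((Icc 1 X).filter fun D : ℕ => Squarefree D ∧ D % 60 ∈ R0).card : ℝ))
      Filter.atTop (nhds (∏ t, PJ.law 0 (rr t))) := by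
  set φ : ι ≃ Fin (Fintype.card ι) := Fintype.equivFin ι with hφ
  have hinj := inj_U h0 hns (fun t => (hU t).2.2)
  have h := joint hJ hR (U := fun t => U (φ.symm t)) (fun t => (hU _).1)
    (fun t t' h => φ.symm.injective (hinj h)) (fun r hr t => by
      have h1 := (hA _ (hU (φ.symm t)).2.1 r (hR.2 r hr).1).2 hr
      have h2 : (r * ((∏ p ∈ U (φ.symm t), p) % 60)) % 60 % 4 = 3 := by
        rw [mem_cB] at h1
        omega
      rw [Nat.mod_mod_of_dvd _ (by norm_num : 4 ∣ 60), Nat.mul_mod,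
        Nat.mod_mod_of_dvd _ (by norm_num : 4 ∣ 60), ← Nat.mul_mod] at h2
      exact h2) (fun t => rr (φ.symm t))
  have e : ∏ t : Fin (Fintype.card ι), PJ.law 0 (rr (φ.symm t)) = ∏ t, PJ.law 0 (rr t) :=
    Equiv.prod_comp φ.symm (fun t => PJ.law 0 (rr t))
  rw [e] at h
  refine h.congr fun X => ?_
  congr 2
  refine NH3.XD.card_iff fun D _ => and_congr_right fun hs => ?_
  rw [PG_iff hA hU hs]
  refine and_congr_right fun _ => ⟨fun h t => ?_, fun h t => h _⟩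
  have := h (φ t)
  simpa using this

end Pool.Agent.NH4.XF
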